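import Pool.Agent.H20.SM.Targets

/-!
# Board sm_modules, row FXYq: the residue classes `y` modulo `q` with `σ(y) y = 1`
-/

set_option autoImplicit false

open NumberField NumberField.InfinitePlace Complex Filter Topology

namespace Pool.Agent.H89.SM

open Pool.Agent.H28.RC Pool.Agent.H25.HK Pool.Agent.H37.CV Pool.Agent.H20.SM

section Core

open scoped Pointwise

variable {A G : Type*} [CommRing A] [Group G] [MulSemiringAction G A]

/-- the solutions agree modulo `P` iff they agree modulo `σ P` -/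
theorem agree {σ : G} {P : Ideal A} (hQ : (σ • P).IsPrime) {x x' : A}
    (hx : (σ • x) * x - 1 ∈ σ • P) (hx' : (σ • x') * x' - 1 ∈ σ • P) :
    x - x' ∈ P ↔ x - x' ∈ σ • P := by
  have hs : x - x' ∈ P ↔ σ • x - σ • x' ∈ σ • P := by
    rw [← smul_sub, Ideal.smul_mem_pointwise_smul_iff]
  have h1 : (1 : A) ∉ σ • P := fun h => hQ.ne_top ((Ideal.eq_top_iff_one _).2 h)
  rw [hs]
  constructor
  · intro h
    have h2 : (σ • x) * (x - x') ∈ σ • P := by
      have e : (σ • x) * (x - x') =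
          ((σ • x) * x - 1) - ((σ • x') * x' - 1) - (σ • x - σ • x') * x' := by ring
      rw [e]
      exact sub_mem (sub_mem hx hx') (Ideal.mul_mem_right _ _ h)
    rcases hQ.mem_or_mem h2 with h3 | h3
    · refine absurd ?_ h1
      have e : (1 : A) = (σ • x) * x - ((σ • x) * x - 1) := by ring
      rw [e]
      exact sub_mem (Ideal.mul_mem_right _ _ h3) hx
    · exact h3
  · intro h
    have h2 : x' * (σ • x - σ • x') ∈ σ • P := by
      have e : x' * (σ • x - σ • x') =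
          ((σ • x) * x - 1) - ((σ • x') * x' - 1) - (σ • x) * (x - x') := by ring
      rw [e]
      exact sub_mem (sub_mem hx hx') (Ideal.mul_mem_left _ _ h)
    rcases hQ.mem_or_mem h2 with h3 | h3
    · refine absurd ?_ h1
      have e : (1 : A) = (σ • x') * x' - ((σ • x') * x' - 1) := by ring
      rw [e]
      exact sub_mem (Ideal.mul_mem_left _ _ h3) hx'
    · exact h3

/-- a set of primes which is disjoint from its image and meets all orbits -/
theorem rep (σ : G) (Ps : Finset (Ideal A)) [DecidableEq (Ideal A)]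
    (hfix : ∀ P ∈ Ps, σ • P ≠ P) : ∃ R ⊆ Ps, Disjoint R (R.image fun P => σ • P) ∧
      ∀ P ∈ Ps, ∃ k : ℤ, σ ^ k • P ∈ R := by
  classical
  let S : Finset (Finset (Ideal A)) :=
    Ps.powerset.filter fun R => Disjoint R (R.image fun P => σ • P)
  have hS : S.Nonempty := ⟨∅, by simp [S]⟩
  obtain ⟨R, hR, hmax⟩ := Finset.exists_max_image S Finset.card hS
  have hR' := Finset.mem_filter.1 hR
  refine ⟨R, Finset.mem_powerset.1 hR'.1, hR'.2, fun P hP => ?_⟩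
  by_contra hno
  push Not at hno
  have hPR : P ∉ R := by simpa using hno 0
  have hins : insert P R ∈ S := by
    refine Finset.mem_filter.2 ⟨Finset.mem_powerset.2
      (Finset.insert_subset hP (Finset.mem_powerset.1 hR'.1)), ?_⟩
    rw [Finset.disjoint_left]
    intro Q hQ hQ'
    obtain ⟨Q', hQ'', rfl⟩ := Finset.mem_image.1 hQ'
    rcases Finset.mem_insert.1 hQ'' with rfl | h2
    · rcases Finset.mem_insert.1 hQ with h1 | h1
      · exact hfix _ hP h1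
      · exact hno 1 (by simpa using h1)
    · rcases Finset.mem_insert.1 hQ with h1 | h1
      · refine hno (-1) ?_
        have : σ ^ (-1 : ℤ) • P = Q' := by
          rw [zpow_neg_one, ← h1, inv_smul_smul]
        rw [this]
        exact h2
      · exact Finset.disjoint_left.1 hR'.2 h1 (Finset.mem_image_of_mem _ h2)
  have := hmax _ hins
  rw [Finset.card_insert_of_notMem hPR] at this
  omega

variable (I : Ideal A) (Ps : Finset (Ideal A))

/-- no fixed primes -/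
theorem core1 [DecidableEq (Ideal A)] (σ : G) (hpr : ∀ P ∈ Ps, P.IsPrime)
    (hst : ∀ P ∈ Ps, σ • P ∈ Ps) (hst' : ∀ P ∈ Ps, σ⁻¹ • P ∈ Ps) (hfix : ∀ P ∈ Ps, σ • P ≠ P)
    (hI : ∀ P ∈ Ps, I ≤ P) (hI' : ∀ x, (∀ P ∈ Ps, x ∈ P) → x ∈ I)
    (hfin : ∀ P ∈ Ps, Finite (A ⧸ P))
    (hN : ∀ P ∈ Ps, Nat.card (A ⧸ (σ • P)) = Nat.card (A ⧸ P)) :
    {y : A ⧸ I | ∃ x : A, Ideal.Quotient.mk I x = y ∧ (σ • x) * x - 1 ∈ I}.ncard ^ 2 ≤
      ∏ P ∈ Ps, Nat.card (A ⧸ P) := by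
  classical
  obtain ⟨R, hR, hdis, horb⟩ := rep σ Ps hfix
  -- agreement on the orbits
  have hag : ∀ x x' : A, (σ • x) * x - 1 ∈ I → (σ • x') * x' - 1 ∈ I → ∀ P ∈ Ps, ∀ k : ℤ,
      σ ^ k • P ∈ Ps ∧ (x - x' ∈ P ↔ x - x' ∈ σ ^ k • P) := by
    intro x x' hx hx' P hP k
    induction k using Int.induction_on with
    | zero => simpa using hP
    | succ k ih =>
      have e : σ ^ ((k : ℤ) + 1) • P = σ • (σ ^ (k : ℤ) • P) := by
        rw [← mul_smul, ← zpow_one_add, add_comm]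
      rw [e]
      have h1 := hst _ ih.1
      exact ⟨h1, ih.2.trans (agree (hpr _ h1) (hI _ h1 hx) (hI _ h1 hx'))⟩
    | pred k ih =>
      have e : σ • (σ ^ (-(k : ℤ) - 1) • P) = σ ^ (-(k : ℤ)) • P := by
        rw [← mul_smul, ← zpow_one_add]
        congr 2
        ring
      have e' : σ ^ (-(k : ℤ) - 1) • P = σ⁻¹ • (σ ^ (-(k : ℤ)) • P) := by
        rw [← e, inv_smul_smul]
      have h1 : σ ^ (-(k : ℤ) - 1) • P ∈ Ps := by
        rw [e']
        exact hst' _ ih.1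
      have h2 := hst _ h1
      refine ⟨h1, ih.2.trans ?_⟩
      rw [← e]
      exact (agree (hpr _ h2) (hI _ h2 hx) (hI _ h2 hx')).symm
  set Y : Set (A ⧸ I) :=
    {y : A ⧸ I | ∃ x : A, Ideal.Quotient.mk I x = y ∧ (σ • x) * x - 1 ∈ I} with hY
  let f : Y → ∀ P : R, A ⧸ P.1 := fun y P =>
    Ideal.Quotient.factor (hI P.1 (hR P.2)) y.1
  have hf : Function.Injective f := by
    rintro ⟨y, x, rfl, hx⟩ ⟨y', x', rfl, hx'⟩ h
    apply Subtype.ext
    rw [Ideal.Quotient.eq]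
    refine hI' _ fun P hP => ?_
    obtain ⟨k, hk⟩ := horb P hP
    refine ((hag x x' hx hx' P hP k).2).2 ?_
    have h1 := congrFun h ⟨σ ^ k • P, hk⟩
    simp only [f, Ideal.Quotient.factor_mk] at h1
    exact Ideal.Quotient.eq.1 h1
  have hfinR : ∀ P : R, Finite (A ⧸ P.1) := fun P => hfin _ (hR P.2)
  have hcard : Y.ncard ≤ ∏ P ∈ R, Nat.card (A ⧸ P) := by
    have h1 := Nat.card_le_card_of_injective f hf
    rw [Nat.card_pi] at h1
    have h2 : ∏ P : R, Nat.card (A ⧸ P.1) = ∏ P ∈ R, Nat.card (A ⧸ P) :=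
      Finset.prod_coe_sort R fun P => Nat.card (A ⧸ P)
    rw [h2] at h1
    exact h1
  have hRs : R.image (fun P => σ • P) ⊆ Ps := by
    intro Q hQ
    obtain ⟨P, hP, rfl⟩ := Finset.mem_image.1 hQ
    exact hst _ (hR hP)
  have himg : ∏ P ∈ R.image (fun P => σ • P), Nat.card (A ⧸ P) = ∏ P ∈ R, Nat.card (A ⧸ P) := by
    rw [Finset.prod_image fun P _ Q _ h => smul_left_cancel σ h]
    exact Finset.prod_congr rfl fun P hP => hN P (hR hP)
  calc Y.ncard ^ 2 ≤ (∏ P ∈ R, Nat.card (A ⧸ P)) ^ 2 := Nat.pow_le_pow_left hcard 2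
    _ = (∏ P ∈ R, Nat.card (A ⧸ P)) * ∏ P ∈ R.image (fun P => σ • P), Nat.card (A ⧸ P) := by
        rw [himg, sq]
    _ = ∏ P ∈ R ∪ R.image (fun P => σ • P), Nat.card (A ⧸ P) :=
        (Finset.prod_union hdis).symm
    _ ≤ ∏ P ∈ Ps, Nat.card (A ⧸ P) := by
        refine Finset.prod_le_prod_of_subset_of_one_le' (Finset.union_subset hR hRs)
          fun P hP _ => ?_
        have := hfin P hP
        exact Nat.card_pos

/-- the square roots of one -/
theorem core2 (hpr : ∀ P ∈ Ps, P.IsPrime) (hI : ∀ P ∈ Ps, I ≤ P)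
    (hI' : ∀ x, (∀ P ∈ Ps, x ∈ P) → x ∈ I) (hfin : ∀ P ∈ Ps, Finite (A ⧸ P))
    (hN : ∀ P ∈ Ps, 4 ≤ Nat.card (A ⧸ P)) :
    {y : A ⧸ I | ∃ x : A, Ideal.Quotient.mk I x = y ∧ x * x - 1 ∈ I}.ncard ^ 2 ≤
      ∏ P ∈ Ps, Nat.card (A ⧸ P) := by
  classical
  set Y : Set (A ⧸ I) :=
    {y : A ⧸ I | ∃ x : A, Ideal.Quotient.mk I x = y ∧ x * x - 1 ∈ I} with hY
  let T : ∀ P : Ps, Set (A ⧸ P.1) := fun P => {c | c * c = 1}
  have hYm : ∀ y : Y, ∀ P : Ps,
      Ideal.Quotient.factor (hI P.1 P.2) y.1 ∈ T P := by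
    rintro ⟨y, x, rfl, hx⟩ P
    show _ * _ = (1 : A ⧸ P.1)
    rw [Ideal.Quotient.factor_mk, ← map_mul, ← map_one (Ideal.Quotient.mk P.1),
      Ideal.Quotient.eq]
    exact hI _ P.2 hx
  let f : Y → ∀ P : Ps, T P := fun y P => ⟨_, hYm y P⟩
  have hf : Function.Injective f := by
    rintro ⟨y, x, rfl, hx⟩ ⟨y', x', rfl, hx'⟩ h
    apply Subtype.ext
    rw [Ideal.Quotient.eq]
    refine hI' _ fun P hP => ?_
    have h1 := congrArg Subtype.val (congrFun h ⟨P, hP⟩)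
    simp only [f, Ideal.Quotient.factor_mk] at h1
    exact Ideal.Quotient.eq.1 h1
  have hfinP : ∀ P : Ps, Finite (A ⧸ P.1) := fun P => hfin _ P.2
  have hT : ∀ P : Ps, Nat.card (T P) ≤ 2 := by
    intro P
    have hp := hpr _ P.2
    have hsub : T P ⊆ {1, -1} := by
      intro c hc
      exact mul_self_eq_one_iff.1 hc
    calc Nat.card (T P) = (T P).ncard := rfl
      _ ≤ ({1, -1} : Set (A ⧸ P.1)).ncard := Set.ncard_le_ncard hsub (Set.toFinite _)
      _ ≤ 2 := (Set.ncard_insert_le _ _).trans (by rw [Set.ncard_singleton])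
  have hcard : Y.ncard ≤ 2 ^ Ps.card := by
    have h1 := Nat.card_le_card_of_injective f hf
    rw [Nat.card_pi] at h1
    calc Y.ncard ≤ ∏ P : Ps, Nat.card (T P) := h1
      _ ≤ ∏ _P : Ps, 2 := Finset.prod_le_prod' fun P _ => hT P
      _ = 2 ^ Ps.card := by
          rw [Finset.prod_const, Finset.card_univ, Fintype.card_coe]
  calc Y.ncard ^ 2 ≤ (2 ^ Ps.card) ^ 2 := Nat.pow_le_pow_left hcard 2
    _ = ∏ _P ∈ Ps, 4 := by
        rw [Finset.prod_const, ← pow_mul, mul_comm, pow_mul]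
        norm_num
    _ ≤ ∏ P ∈ Ps, Nat.card (A ⧸ P) := Finset.prod_le_prod' fun P hP => hN P hP

end Core

open scoped Pointwise in
theorem pf_FXYq (hSPL : Pool.Agent.H20.SM.T_SPL) (hCRT : T_CRT) : T_FXYq := by
  classical
  intro F _ _ _ q hq h5 σ
  obtain ⟨c1, c2, c3, c4, c5, c6⟩ := hCRT F q hq
  set Ps : Finset (Ideal (𝓞 F)) := (pf (qi F q)).image Subtype.val with hPs
  have hmem : ∀ P, P ∈ Ps ↔ P.IsPrime ∧ ∃ p ∈ q.primeFactors, (p : 𝓞 F) ∈ P := by
    intro P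
    rw [hPs, Finset.mem_image]
    constructor
    · rintro ⟨Q, hQ, rfl⟩
      exact ⟨Q.2.1, (c3 Q).1 hQ⟩
    · rintro ⟨hP, p, hp, hpP⟩
      have h0 := ((hSPL F p (hq.2 p hp)).2.1 P hP hpP).1
      exact ⟨⟨P, hP, h0⟩, (c3 _).2 ⟨p, hp, hpP⟩, rfl⟩
  have hpr : ∀ P ∈ Ps, P.IsPrime := fun P hP => ((hmem P).1 hP).1
  have hnorm : ∀ P : Ideal (𝓞 F), P.IsPrime → ∀ p ∈ q.primeFactors, (p : 𝓞 F) ∈ P →
      Nat.card (𝓞 F ⧸ P) = p := by
    intro P hP p hp hpP
    have := ((hSPL F p (hq.2 p hp)).2.1 P hP hpP).2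
    rw [Ideal.absNorm_apply] at this
    exact this
  have hfin : ∀ P ∈ Ps, Finite (𝓞 F ⧸ P) := by
    intro P hP
    obtain ⟨hP1, p, hp, hpP⟩ := (hmem P).1 hP
    refine Nat.finite_of_card_ne_zero ?_
    rw [hnorm P hP1 p hp hpP]
    exact (Nat.prime_of_mem_primeFactors hp).ne_zero
  have hstab : ∀ τ : F ≃ₐ[ℚ] F, ∀ P : Ideal (𝓞 F), ∀ p : ℕ, (p : 𝓞 F) ∈ P →
      (p : 𝓞 F) ∈ τ • P := by
    intro τ P p hp
    have h1 := Ideal.smul_mem_pointwise_smul τ (p : 𝓞 F) P hp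
    have h2 : τ • (p : 𝓞 F) = (p : 𝓞 F) :=
      map_natCast (MulSemiringAction.toRingHom (F ≃ₐ[ℚ] F) (𝓞 F) τ) p
    rwa [h2] at h1
  have hprs : ∀ τ : F ≃ₐ[ℚ] F, ∀ P : Ideal (𝓞 F), P.IsPrime → (τ • P).IsPrime := by
    intro τ P hP
    infer_instance
  have hst : ∀ τ : F ≃ₐ[ℚ] F, ∀ P ∈ Ps, τ • P ∈ Ps := by
    intro τ P hP
    obtain ⟨hP1, p, hp, hpP⟩ := (hmem P).1 hP
    exact (hmem _).2 ⟨hprs τ P hP1, p, hp, hstab τ P p hpP⟩
  have hI : ∀ P ∈ Ps, qi F q ≤ P := by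
    intro P hP
    obtain ⟨hP1, p, hp, hpP⟩ := (hmem P).1 hP
    unfold qi
    rw [Ideal.span_singleton_le_iff_mem]
    obtain ⟨k, hk⟩ := Nat.dvd_of_mem_primeFactors hp
    rw [hk, Nat.cast_mul]
    exact Ideal.mul_mem_right _ _ hpP
  have hI' : ∀ x, (∀ P ∈ Ps, x ∈ P) → x ∈ qi F q := by
    intro x hx
    have h1 : ∀ p ∈ q.primeFactors, (p : 𝓞 F) ∣ x := by
      intro p hp
      rw [← Ideal.mem_span_singleton]
      exact (hSPL F p (hq.2 p hp)).2.2.1 x fun P hP hpP => hx P ((hmem P).2 ⟨hP, p, hp, hpP⟩)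
    have h2 : ∏ p ∈ q.primeFactors, (p : 𝓞 F) ∣ x := by
      refine Finset.prod_dvd_of_coprime ?_ h1
      intro p hp p' hp' hne
      have hc : Nat.Coprime p p' := (Nat.coprime_primes
        (Nat.prime_of_mem_primeFactors hp) (Nat.prime_of_mem_primeFactors hp')).2 hne
      have h3 : IsCoprime (p : ℤ) (p' : ℤ) := Nat.isCoprime_iff_coprime.2 hc
      have h4 := h3.map (Int.castRingHom (𝓞 F))
      simpa using h4
    unfold qi
    rw [Ideal.mem_span_singleton]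
    have h3 : ((∏ p ∈ q.primeFactors, p : ℕ) : 𝓞 F) = (q : 𝓞 F) := by
      rw [Nat.prod_primeFactors_of_squarefree hq.1]
    rw [← h3, Nat.cast_prod]
    exact h2
  have hprod : ∏ P ∈ Ps, Nat.card (𝓞 F ⧸ P) = q ^ Module.finrank ℚ F := by
    have h1 : nS np (pf (qi F q)) = (q : ℝ) ^ Module.finrank ℚ F := by
      rw [← c6]
      exact ((c1 (qi F q) le_rfl).2.1).symm
    rw [hPs, Finset.prod_image fun P _ Q _ h => Subtype.ext h]
    have h2 : ((∏ P ∈ pf (qi F q), Nat.card (𝓞 F ⧸ P.1) : ℕ) : ℝ) =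
        ((q ^ Module.finrank ℚ F : ℕ) : ℝ) := by
      rw [Nat.cast_prod, Nat.cast_pow, ← h1]
      unfold nS np nm
      refine Finset.prod_congr rfl fun P _ => ?_
      rw [Ideal.absNorm_apply]
      rfl
    exact_mod_cast h2
  rw [← hprod]
  by_cases hσ : σ = 1
  · subst hσ
    have h := core2 (qi F q) Ps hpr hI hI' hfin (fun P hP => by
      obtain ⟨hP1, p, hp, hpP⟩ := (hmem P).1 hP
      rw [hnorm P hP1 p hp hpP]
      exact le_trans (by norm_num) (h5 p hp))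
    simpa only [one_smul] using h
  · refine core1 (qi F q) Ps σ hpr (hst σ) (hst σ⁻¹) (fun P hP h => ?_) hI hI' hfin
      (fun P hP => ?_)
    · obtain ⟨hP1, p, hp, hpP⟩ := (hmem P).1 hP
      exact hσ ((hSPL F p (hq.2 p hp)).2.2.2 P σ hP1 hpP h)
    · obtain ⟨hP1, p, hp, hpP⟩ := (hmem P).1 hP
      rw [hnorm P hP1 p hp hpP, hnorm _ (hprs σ P hP1) p hp (hstab σ P p hpP)]

end Pool.Agent.H89.SM
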